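import Pool.Agent.Helper15.PE.St

/-!
# Module WIN of project PE: the window lemma
-/

set_option autoImplicit false
open Classical

namespace Pool.Agent.Helper90.PE

open Pool.Agent.Helper15.PE
open Pool.Agent.Helper14.J1 (IsLE desN)

/-- a log-concave sequence is at least `μ` between two places where it is at least `μ` -/
theorem between (f : ℕ → ℝ) (hf : ∀ m, 0 ≤ f m)
    (hlc : ∀ m c d, f m * f (m + c + d) ≤ f (m + c) * f (m + d)) (μ : ℝ) (hμ : 0 < μ) (m2 : ℕ) :
    ∀ n m1 m3 : ℕ, m3 - m1 = n → m1 ≤ m2 → m2 ≤ m3 → μ ≤ f m1 → μ ≤ f m3 → μ ≤ f m2 := by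
  intro n
  induction n with
  | zero =>
    intro m1 m3 h h1 h2 h3 _
    have : m1 = m2 := by omega
    rw [← this]; exact h3
  | succ n ih =>
    intro m1 m3 h h1 h2 h3 h4
    rcases Nat.eq_or_lt_of_le h1 with e1 | l1
    · rw [← e1]; exact h3
    rcases Nat.eq_or_lt_of_le h2 with e2 | l2
    · rw [e2]; exact h4
    have key := hlc m1 1 (m3 - m1 - 1)
    have e3 : m1 + 1 + (m3 - m1 - 1) = m3 := by omega
    have e4 : m1 + (m3 - m1 - 1) = m3 - 1 := by omega
    rw [e3, e4] at key
    by_cases h5 : μ ≤ f (m1 + 1)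
    · exact ih (m1 + 1) m3 (by omega) (by omega) h2 h5 h4
    · by_cases h6 : μ ≤ f (m3 - 1)
      · exact ih m1 (m3 - 1) (by omega) h1 (by omega) h3 h6
      · exfalso
        push Not at h5 h6
        have a1 : μ * μ ≤ f m1 * f m3 := mul_le_mul h3 h4 hμ.le (hf _)
        have a2 : f (m1 + 1) * f (m3 - 1) < μ * μ := mul_lt_mul'' h5 h6 (hf _) (hf _)
        linarith

/-- the strict form -/
theorem hWindow' : ∀ (N : ℕ) (a : ℕ → ℕ) (x c : ℝ), Hyp N a → 0 < x → x < 1 → 0 < c → (∀ q, (a q : ℝ) * x ^ q ≤ c) →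
    ∀ (i k j w l0 : ℕ), i ≤ k → k ≤ j → (a i : ℝ) * x ^ i = c → (a j : ℝ) * x ^ j = c →
      (∀ t : ℕ, gg N x (l0 + t) ≤ gg N x l0) → (∀ t : ℕ, t ≤ l0 → gg N x (l0 - t) ≤ gg N x l0) →
      (∀ t : ℕ, w ≤ t → gg N x (l0 + t) ≤ gg N x l0 / (4 * (N + 1))) →
      (∀ t : ℕ, w ≤ t → t ≤ l0 → gg N x (l0 - t) ≤ gg N x l0 / (4 * (N + 1))) →
      ∃ q : ℕ, q < k + w ∧ k < q + w ∧ c / (2 * (N + 1)) ≤ (a q : ℝ) * x ^ q := by
  intro N a x c hH hx hx1 hc hle i k j w l0 hik hkj hi hj hg1 hg2 hg3 hg4
  by_contra hcon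
  push Not at hcon
  have hN : (0 : ℝ) < (N : ℝ) + 1 := by positivity
  have hgg : 0 < gg N x l0 := by
    unfold gg
    have : 0 < (l0 + N).choose N := Nat.choose_pos (Nat.le_add_left _ _)
    have : (0 : ℝ) < ((l0 + N).choose N : ℝ) := by exact_mod_cast this
    positivity
  set μ := c * gg N x l0 with hμdef
  have hμ : 0 < μ := mul_pos hc hgg
  set Dt : ℕ → ℝ := fun m => (DD N a m : ℝ) * x ^ m with hDt
  have hDt0 : ∀ m, 0 ≤ Dt m := fun m => by rw [hDt]; positivity
  have hlc : ∀ m c d, Dt m * Dt (m + c + d) ≤ Dt (m + c) * Dt (m + d) := by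
    intro m c d
    have h1 := hH.2.2 m c d
    have h2 : (DD N a m : ℝ) * (DD N a (m + c + d) : ℝ) ≤ (DD N a (m + c) : ℝ) * (DD N a (m + d) : ℝ) := by
      exact_mod_cast h1
    have e1 : Dt m * Dt (m + c + d) = ((DD N a m : ℝ) * (DD N a (m + c + d) : ℝ)) * x ^ (m + (m + c + d)) := by
      rw [hDt]; simp only; rw [pow_add]; ring
    have e2 : Dt (m + c) * Dt (m + d) = ((DD N a (m + c) : ℝ) * (DD N a (m + d) : ℝ)) * x ^ (m + (m + c + d)) := by
      rw [hDt]; simp only
      have : m + (m + c + d) = (m + c) + (m + d) := by ring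
      rw [this, pow_add x (m + c) (m + d)]; ring
    rw [e1, e2]
    exact mul_le_mul_of_nonneg_right h2 (by positivity)
  have hend : ∀ i, (a i : ℝ) * x ^ i = c → μ ≤ Dt (i + l0) := by
    intro i hi
    have hiN : i ≤ N := by
      by_contra h
      push Not at h
      have := hH.1 i h
      rw [this] at hi
      simp at hi
      linarith
    have h1 : a i * (i + l0 + N - i).choose N ≤ DD N a (i + l0) := by
      unfold DD
      exact Finset.single_le_sum (f := fun q => a q * (i + l0 + N - q).choose N) (fun _ _ => Nat.zero_le _)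
        (Finset.mem_range.2 (by omega))
    have e : i + l0 + N - i = l0 + N := by omega
    rw [e] at h1
    have h2 : (a i : ℝ) * ((l0 + N).choose N : ℝ) ≤ (DD N a (i + l0) : ℝ) := by exact_mod_cast h1
    rw [hμdef, hDt]
    simp only
    unfold gg
    rw [← hi, pow_add]
    calc (a i : ℝ) * x ^ i * (((l0 + N).choose N : ℝ) * x ^ l0)
        = ((a i : ℝ) * ((l0 + N).choose N : ℝ)) * (x ^ i * x ^ l0) := by ring
      _ ≤ _ := mul_le_mul_of_nonneg_right h2 (by positivity)
  have hmid : μ ≤ Dt (k + l0) :=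
    between Dt hDt0 hlc μ hμ (k + l0) _ (i + l0) (j + l0) rfl (by omega) (by omega) (hend i hi) (hend j hj)
  -- the upper bound
  have hterm : ∀ q ∈ Finset.range (N + 1),
      ((a q * (k + l0 + N - q).choose N : ℕ) : ℝ) * x ^ (k + l0) ≤ μ / (2 * (N + 1)) := by
    intro q hq
    rw [Finset.mem_range] at hq
    by_cases hql : q ≤ k + l0
    · have e1 : (k + l0 + N - q) = (k + l0 - q) + N := by omega
      have e2 : x ^ (k + l0) = x ^ q * x ^ (k + l0 - q) := by rw [← pow_add]; congr 1; omega
      have e3 : ((a q * (k + l0 + N - q).choose N : ℕ) : ℝ) * x ^ (k + l0) =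
          ((a q : ℝ) * x ^ q) * gg N x (k + l0 - q) := by
        unfold gg
        rw [e1, e2]; push_cast; ring
      rw [e3]
      have hq0 : 0 ≤ (a q : ℝ) * x ^ q := by positivity
      have hgq : gg N x (k + l0 - q) ≤ gg N x l0 := by
        rcases le_total q k with h | h
        · have : k + l0 - q = l0 + (k - q) := by omega
          rw [this]; exact hg1 _
        · have : k + l0 - q = l0 - (q - k) := by omega
          rw [this]; exact hg2 _ (by omega)
      by_cases hnear : q < k + w ∧ k < q + w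
      · have h1 := hcon q hnear.1 hnear.2
        calc (a q : ℝ) * x ^ q * gg N x (k + l0 - q) ≤ (a q : ℝ) * x ^ q * gg N x l0 :=
              mul_le_mul_of_nonneg_left hgq hq0
          _ ≤ c / (2 * (N + 1)) * gg N x l0 := mul_le_mul_of_nonneg_right h1.le hgg.le
          _ = μ / (2 * (N + 1)) := by rw [hμdef]; ring
      · have hgq2 : gg N x (k + l0 - q) ≤ gg N x l0 / (4 * (N + 1)) := by
          rcases le_total q k with h | h
          · have : k + l0 - q = l0 + (k - q) := by omega
            rw [this]; exact hg3 _ (by omega)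
          · have : k + l0 - q = l0 - (q - k) := by omega
            rw [this]; exact hg4 _ (by omega) (by omega)
        calc (a q : ℝ) * x ^ q * gg N x (k + l0 - q) ≤ c * (gg N x l0 / (4 * (N + 1))) := by
              apply mul_le_mul (hle q) hgq2 _ hc.le
              unfold gg; positivity
          _ = μ / (4 * (N + 1)) := by rw [hμdef]; ring
          _ ≤ μ / (2 * (N + 1)) := by
              apply div_le_div_of_nonneg_left hμ.le (by positivity)
              nlinarith
    · have : (k + l0 + N - q).choose N = 0 := Nat.choose_eq_zero_of_lt (by omega)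
      rw [this]
      simp
      positivity
  have hsum : Dt (k + l0) ≤ μ / 2 := by
    rw [hDt]
    simp only
    unfold DD
    push_cast
    rw [Finset.sum_mul]
    calc ∑ q ∈ Finset.range (N + 1), (a q : ℝ) * ((k + l0 + N - q).choose N : ℝ) * x ^ (k + l0)
        ≤ ∑ q ∈ Finset.range (N + 1), μ / (2 * (N + 1)) := by
          apply Finset.sum_le_sum
          intro q hq
          have := hterm q hq
          push_cast at this
          exact this
      _ = μ / 2 := by
          rw [Finset.sum_const, Finset.card_range, nsmul_eq_mul]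
          push_cast
          field_simp
  linarith

theorem hWindow : StWindow := by
  intro N a x c hH hx hx1 hc hle i k j w l0 hik hkj hi hj hg1 hg2 hg3 hg4
  obtain ⟨q, h1, h2, h3⟩ := hWindow' N a x c hH hx hx1 hc hle i k j w l0 hik hkj hi hj hg1 hg2 hg3 hg4
  exact ⟨q, h1.le, h2.le, h3⟩

end Pool.Agent.Helper90.PE
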